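import Mathlib

/-!
# MP_b34cfe_co, Q1: the proposed bound on the modified EGZ constants fails

For `n = 3`, `t = 1` and every `d ≥ 3` there is a zero-sum sequence over `(ZMod 3)^d` of length
at least `(t + 2^d - 1) n - ℓ + 1` (with `ℓ = 2^d` the least integer `≥ 2^d` not dividing `3`)
without zero-sum subsequence of length `n t = 3`.
-/

namespace Pool.Agent.Results.MP_b34cfe_co.Disproof

open Multiset

/-- The cap: `(x, y, x^2 + y^2, e)` with `e ∈ {0,1}^k`. -/
def f {k : ℕ} (a : (ZMod 3 × ZMod 3) × (Fin k → Bool)) : Fin (3 + k) → ZMod 3 :=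
  Fin.append ![a.1.1, a.1.2, a.1.1 ^ 2 + a.1.2 ^ 2] (fun i => if a.2 i then 1 else 0)

lemma cap3 : ∀ x y x' y' x'' y'' : ZMod 3, x + x' + x'' = 0 → y + y' + y'' = 0 →
    (x ^ 2 + y ^ 2) + (x' ^ 2 + y' ^ 2) + (x'' ^ 2 + y'' ^ 2) = 0 →
    x = x' ∧ x = x'' ∧ y = y' ∧ y = y'' := by
  decide

lemma capB : ∀ a b c : Bool, (if a then (1 : ZMod 3) else 0) + (if b then 1 else 0) +
    (if c then 1 else 0) = 0 → a = b ∧ a = c := by
  decide

lemma f_zero {k : ℕ} (a b c : (ZMod 3 × ZMod 3) × (Fin k → Bool)) (h : f a + f b + f c = 0) :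
    a = b ∧ a = c := by
  have h0 := congrFun h (Fin.castAdd k 0)
  have h1 := congrFun h (Fin.castAdd k 1)
  have h2 := congrFun h (Fin.castAdd k 2)
  have hk : ∀ i : Fin k, f a (Fin.natAdd 3 i) + f b (Fin.natAdd 3 i) + f c (Fin.natAdd 3 i) = 0 :=
    fun i => congrFun h (Fin.natAdd 3 i)
  simp only [f, Pi.add_apply, Fin.append_left, Pi.zero_apply, Matrix.cons_val_zero,
    Matrix.cons_val_one, Matrix.cons_val] at h0 h1 h2
  simp only [f, Fin.append_right] at hk
  obtain ⟨hx, hx', hy, hy'⟩ := cap3 _ _ _ _ _ _ h0 h1 h2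
  refine ⟨Prod.ext (Prod.ext hx hy) (funext fun i => (capB _ _ _ (hk i)).1),
    Prod.ext (Prod.ext hx' hy') (funext fun i => (capB _ _ _ (hk i)).2)⟩

lemma f_inj {k : ℕ} : Function.Injective (f (k := k)) := by
  intro a b h
  have h3 : f a + f a + f b = 0 := by
    rw [← h]
    funext i
    have : ∀ z : ZMod 3, z + z + z = 0 := by decide
    exact this _
  exact (f_zero a a b h3).2

lemma three_smul' {k : ℕ} (v : Fin (3 + k) → ZMod 3) : v + v + v = 0 := by
  funext i
  have : ∀ z : ZMod 3, z + z + z = 0 := by decide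
  exact this _

lemma main (k : ℕ) : ∃ S : Multiset (Fin (3 + k) → ZMod 3),
    card S = 18 * 2 ^ k - 1 ∧ S.sum = 0 ∧ ∀ T ≤ S, card T = 3 → T.sum ≠ 0 := by
  classical
  let A := (ZMod 3 × ZMod 3) × (Fin k → Bool)
  let a0 : A := ((0, 0), fun _ => false)
  let S0 : Multiset A := ((Finset.univ : Finset A).val + (Finset.univ : Finset A).val).erase a0
  have hS0 : card S0 = 18 * 2 ^ k - 1 := by
    have hmem : a0 ∈ (Finset.univ : Finset A).val + (Finset.univ : Finset A).val := by simp
    have h1 : card ((Finset.univ : Finset A).val) = 9 * 2 ^ k := by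
      show (Finset.univ : Finset A).card = _
      rw [Finset.card_univ]
      simp [A, ZMod.card]
    rw [Multiset.card_erase_of_mem hmem, Multiset.card_add, h1, Nat.pred_eq_sub_one]
    ring_nf
  let v : Fin (3 + k) → ZMod 3 := (S0.map f).sum
  refine ⟨S0.map (fun a => f a + v), by rw [Multiset.card_map, hS0], ?_, ?_⟩
  · rw [Multiset.sum_map_add, Multiset.map_const', Multiset.sum_replicate, hS0]
    have hpos : 1 ≤ 2 ^ k := Nat.one_le_two_pow
    have e : 1 + (18 * 2 ^ k - 1) = 3 * (6 * 2 ^ k) := by omega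
    have : (S0.map f).sum + (18 * 2 ^ k - 1) • v = (1 + (18 * 2 ^ k - 1)) • v := by
      rw [add_smul, one_smul]
    rw [this, e, mul_comm 3, mul_smul]
    have h3 : (3 : ℕ) • v = 0 := by
      have := three_smul' v
      rw [← this, succ_nsmul, succ_nsmul, one_nsmul]
    rw [h3, smul_zero]
  · intro T hT hc hs
    obtain ⟨x, y, z, rfl⟩ := Multiset.card_eq_three.mp hc
    have hx : x ∈ S0.map (fun a => f a + v) := Multiset.mem_of_le hT (by simp)
    have hy : y ∈ S0.map (fun a => f a + v) := Multiset.mem_of_le hT (by simp)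
    have hz : z ∈ S0.map (fun a => f a + v) := Multiset.mem_of_le hT (by simp)
    obtain ⟨a, -, rfl⟩ := Multiset.mem_map.mp hx
    obtain ⟨b, -, rfl⟩ := Multiset.mem_map.mp hy
    obtain ⟨c, -, rfl⟩ := Multiset.mem_map.mp hz
    have hsum : f a + f b + f c = 0 := by
      have h1 : ({f a + v, f b + v, f c + v} : Multiset (Fin (3 + k) → ZMod 3)).sum
          = f a + f b + f c + (v + v + v) := by
        simp only [Multiset.insert_eq_cons, Multiset.sum_cons, Multiset.sum_singleton]
        abel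
      rw [h1, three_smul', add_zero] at hs
      exact hs
    obtain ⟨hab, hac⟩ := f_zero a b c hsum
    subst hab
    subst hac
    have hcount := Multiset.le_iff_count.mp hT (f a + v)
    have hinj : Function.Injective (fun a : A => f a + v) := by
      intro p q hpq
      exact f_inj (add_right_cancel hpq)
    have e1 : Multiset.count (f a + v) (S0.map (fun a => f a + v)) = Multiset.count a S0 :=
      Multiset.count_map_eq_count' (fun a : A => f a + v) S0 hinj a
    rw [e1] at hcount
    have e2 : Multiset.count a S0 ≤ 2 := by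
      have : S0 ≤ (Finset.univ : Finset A).val + (Finset.univ : Finset A).val :=
        Multiset.erase_le _ _
      have h2 := Multiset.le_iff_count.mp this a
      have h3 : Multiset.count a (Finset.univ : Finset A).val ≤ 1 :=
        Multiset.nodup_iff_count_le_one.mp (Finset.univ : Finset A).nodup a
      rw [Multiset.count_add] at h2
      omega
    have e3 : Multiset.count (f a + v)
        ({f a + v, f a + v, f a + v} : Multiset (Fin (3 + k) → ZMod 3)) = 3 := by
      simp
    omega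

/-- Q1 is false: with `n = 3`, `t = 1` and every `d ≥ 3`, where `ℓ = 2^d` is the least integer
`≥ 2^d` not dividing `n`, there is a zero-sum sequence over `(ZMod n)^d` of length at least
`(t + 2^d - 1) n - ℓ + 1` without zero-sum subsequence of length `n t`. -/
theorem result :
    ∀ d : ℕ, 3 ≤ d → ∃ ℓ : ℕ, IsLeast {l : ℕ | 2 ^ d ≤ l ∧ ¬ l ∣ 3} ℓ ∧
        ∃ S : Multiset (Fin d → ZMod 3),
          (((1 : ℤ) + 2 ^ d - 1) * 3 - ℓ + 1 ≤ (card S : ℤ)) ∧ S.sum = 0 ∧
          ∀ T ≤ S, card T = 3 * 1 → T.sum ≠ 0 := by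
  intro d hd
  obtain ⟨k, rfl⟩ := Nat.exists_eq_add_of_le hd
  refine ⟨2 ^ (3 + k), ⟨⟨le_refl _, ?_⟩, fun l hl => hl.1⟩, ?_⟩
  · intro h
    have h1 := Nat.le_of_dvd (by norm_num) h
    have h2 : 2 ^ 3 ≤ 2 ^ (3 + k) := Nat.pow_le_pow_right (by norm_num) (by omega)
    omega
  · obtain ⟨S, hS, hsum, hT⟩ := main k
    refine ⟨S, ?_, hsum, by simpa using hT⟩
    rw [hS]
    have hpos : 1 ≤ 2 ^ k := Nat.one_le_two_pow
    have h18 : 1 ≤ 18 * 2 ^ k := by omega
    push_cast [h18]
    have : (1 : ℤ) ≤ 2 ^ k := by exact_mod_cast hpos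
    rw [pow_add]
    nlinarith

end Pool.Agent.Results.MP_b34cfe_co.Disproof
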